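import Mathlib
import Pool.Agent.DFM.Stmts

/-!
# Squad DFM, row CBN: countable coinitiality and cofinality less than the bounding number
-/

set_option autoImplicit false

namespace Pool.Agent.DFM.H75

open Pool.Agent.DFM

theorem cbn (h0 : HtfStmt) : CbnStmt := by
  intro P _ S D hL hS hSc hD hcard
  rcases isEmpty_or_nonempty P with hP | ⟨⟨x0⟩⟩
  · exact ⟨fun _ => 0, fun x => isEmptyElim x⟩
  obtain ⟨s0, hs0, -⟩ := hS x0
  obtain ⟨o, ho⟩ := hSc.exists_eq_range ⟨s0, hs0⟩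
  obtain ⟨h, h1, h2⟩ := h0 P hL
  have hmono : ∀ a x y, a ≤ x → x ≤ y → h a x ≤ h a y := fun a x y hax hxy =>
    le_trans (Nat.le_add_right _ _) (h2 a x y hax hxy)
  have hnU : ¬ Unb ((fun d n => h (o n) d) '' D) := by
    intro hU
    have hle : bNum ≤ Cardinal.mk ((fun (d : P) (n : ℕ) => h (o n) d) '' D : Set (ℕ → ℕ)) :=
      csInf_le' ⟨_, hU, rfl⟩
    exact absurd (hle.trans Cardinal.mk_image_le) (not_le.2 hcard)
  have hg : ∃ g : ℕ → ℕ, ∀ d ∈ D, ∃ m : ℕ, ∀ n, m ≤ n → h (o n) d ≤ g n := by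
    unfold Unb at hnU
    push Not at hnU
    obtain ⟨g, hg⟩ := hnU
    exact ⟨g, fun d hd => hg _ ⟨d, hd, rfl⟩⟩
  obtain ⟨g, hg⟩ := hg
  have key : ∀ x : P, ∃ z : ℤ, (∃ n : ℕ, o n ≤ x ∧ z = (h (o n) x : ℤ) - g n - n) ∧
      ∀ z' : ℤ, (∃ n : ℕ, o n ≤ x ∧ z' = (h (o n) x : ℤ) - g n - n) → z' ≤ z := by
    intro x
    obtain ⟨d, hd, hxd⟩ := hD x
    obtain ⟨m, hm⟩ := hg d hd
    refine Int.exists_greatest_of_bdd
      ⟨((∑ n ∈ Finset.range m, h (o n) d : ℕ) : ℤ), ?_⟩ ?_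
    · rintro z ⟨n, hn, rfl⟩
      have e1 : h (o n) x ≤ h (o n) d := hmono _ _ _ hn hxd
      by_cases hnm : m ≤ n
      · have e2 := hm n hnm
        have e3 : (0 : ℤ) ≤ ((∑ n ∈ Finset.range m, h (o n) d : ℕ) : ℤ) := Int.natCast_nonneg _
        have e4 : (h (o n) x : ℤ) ≤ g n := by exact_mod_cast e1.trans e2
        have e5 : (0 : ℤ) ≤ (n : ℤ) := Int.natCast_nonneg _
        linarith
      · have e2 : h (o n) d ≤ ∑ n ∈ Finset.range m, h (o n) d :=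
          Finset.single_le_sum (f := fun n => h (o n) d) (fun _ _ => Nat.zero_le _)
            (Finset.mem_range.2 (by omega))
        have e3 : (h (o n) x : ℤ) ≤ ((∑ n ∈ Finset.range m, h (o n) d : ℕ) : ℤ) := by
          exact_mod_cast e1.trans e2
        have e4 : (0 : ℤ) ≤ (g n : ℤ) := Int.natCast_nonneg _
        have e5 : (0 : ℤ) ≤ (n : ℤ) := Int.natCast_nonneg _
        linarith
    · obtain ⟨s, hs, hsx⟩ := hS x
      rw [ho] at hs
      obtain ⟨n, rfl⟩ := hs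
      exact ⟨_, n, hsx, rfl⟩
  choose f hf1 hf2 using key
  refine ⟨f, fun x y hxy => ?_⟩
  obtain ⟨n, hn, he⟩ := hf1 x
  have e1 : (h (o n) y : ℤ) - g n - n ≤ f y := hf2 y _ ⟨n, hn.trans hxy.le, rfl⟩
  have e2 : h (o n) x + h x y ≤ h (o n) y := h2 _ _ _ hn hxy.le
  have e3 : 1 ≤ h x y := h1 x y hxy
  have e4 : (h (o n) x : ℤ) + 1 ≤ h (o n) y := by exact_mod_cast (by omega : h (o n) x + 1 ≤ h (o n) y)
  linarith

end Pool.Agent.DFM.H75
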